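import Pool.Agent.H97.SHL.Targets

/-!
# Row ZRC of shl_modules: the recursion for the centred counts (helper80)
-/

set_option autoImplicit false

namespace Pool.Agent.H80.SHL

open Finset Pool.Agent.H97.SHL

/-- the cube with one more fixed coordinate -/
theorem fx_insert {m B : ℕ} (Q : Finset (Pt m B)) (C : Finset (Fin m)) (z : Pt m B) (i : Fin m)
    (hi : i ∉ C) (γ : Fin B) :
    fx Q (insert i C) (Function.update z i γ) = (fx Q C z).filter (fun x => x i = γ) := by
  ext x
  simp only [fx, mem_filter, mem_insert]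
  constructor
  · rintro ⟨h1, h2⟩
    refine ⟨⟨h1, fun j hj => ?_⟩, ?_⟩
    · have h3 := h2 j (Or.inr hj)
      have hne : j ≠ i := fun h => hi (h ▸ hj)
      rwa [Function.update_of_ne hne] at h3
    · have h3 := h2 i (Or.inl rfl)
      rwa [Function.update_self] at h3
  · rintro ⟨⟨h1, h2⟩, h3⟩
    refine ⟨h1, ?_⟩
    rintro j (rfl | hj)
    · rw [Function.update_self]
      exact h3
    · have hne : j ≠ i := fun h => hi (h ▸ hj)
      rw [Function.update_of_ne hne]
      exact h2 j hj

/-- Row ZRC. -/
theorem pf_ZRC : T_ZRC := by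
  intro m B q G Q C z J η i hi hC
  constructor
  · unfold Zs
    rw [← Finset.sum_fiberwise (fx Q C z) (fun x => x i)]
    refine Finset.sum_congr rfl fun γ _ => ?_
    rw [fx_insert Q C z i hC γ, Finset.mul_sum]
    refine Finset.sum_congr rfl fun x hx => ?_
    have hxi : x i = γ := (Finset.mem_filter.1 hx).2
    rw [← Finset.mul_prod_erase J _ hi, hxi]
  · intro g P
    unfold Zs
    refine Finset.sum_congr rfl fun x _ => Finset.prod_congr rfl fun j hj => ?_
    rw [Function.update_of_ne (Finset.ne_of_mem_erase hj)]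

end Pool.Agent.H80.SHL
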